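import Mathlib

/-! # Exponential growth of the coefficients of reciprocals of false theta functions -/

set_option autoImplicit false

namespace Pool.Agent.Results.MP_0ebc21_nt.ExponentialGrowth

open Finset Filter Topology

/-- `binom(n, 2) = n (n - 1) / 2` for an integer `n` -/
def binom2 (n : ℤ) : ℤ := n * (n - 1) / 2

/-- the coefficient of `q^N` in `Ψ(-q^a, q)`: the sum, over the integers `n` with
`a binom(n+1, 2) + binom(n, 2) = N`, of `(-1)^{binom(n+1, 2)}`, with the sign `+` for `n ≥ 0` and `-`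
for `n ≤ -1` (all such `n` satisfy `|n| ≤ N + 1`) -/
noncomputable def psi (a N : ℕ) : ℤ :=
  ∑ n ∈ Icc (-(N : ℤ) - 1) (N + 1), if (a : ℤ) * binom2 (n + 1) + binom2 n = N then
    (if 0 ≤ n then 1 else -1) * (-1) ^ (binom2 (n + 1)).toNat else 0

/-- the power series `Ψ(-q^a, q)` -/
noncomputable def Psi (a : ℕ) : PowerSeries ℤ := PowerSeries.mk (psi a)

/-- the coefficients of `1 / Ψ(-q^a, q)` -/
noncomputable def c (a n : ℕ) : ℤ := PowerSeries.coeff n (PowerSeries.invOfUnit (Psi a) 1)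

/-- triangular numbers -/
def T (m : ℕ) : ℕ := m * (m + 1) / 2

theorem two_T (m : ℕ) : 2 * T m = m * (m + 1) := by
  unfold T
  exact Nat.mul_div_cancel' (Nat.even_mul_succ_self m).two_dvd

theorem le_T (m : ℕ) : m ≤ T m := by
  have h := two_T m
  rcases Nat.eq_zero_or_pos m with h0 | h0
  · subst h0; simp
  · nlinarith

/-- the exponents -/
def e (a m : ℕ) : ℕ := a * T m + (T m - m)

theorem le_e (a m : ℕ) (ha : 1 ≤ a) : m ≤ e a m := by
  unfold e
  have h1 := le_T m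
  have h2 : T m ≤ a * T m := Nat.le_mul_of_pos_left _ ha
  omega

theorem binom2_pos (m : ℕ) : binom2 ((m : ℤ) + 1) = (T m : ℤ) := by
  unfold binom2
  have h : (2 : ℤ) * T m = m * (m + 1) := by exact_mod_cast two_T m
  have : ((m : ℤ) + 1) * (m + 1 - 1) = 2 * T m := by rw [h]; ring
  rw [this]; simp

theorem binom2_pos' (m : ℕ) : binom2 (m : ℤ) = ((T m - m : ℕ) : ℤ) := by
  unfold binom2
  have h : (2 : ℤ) * T m = m * (m + 1) := by exact_mod_cast two_T m
  have h1 := le_T m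
  rw [Nat.cast_sub h1]
  have : (m : ℤ) * (m - 1) = 2 * (T m - m) := by linear_combination -h
  rw [this]; simp

theorem binom2_neg (m : ℕ) : binom2 (-((m : ℤ) + 1) + 1) = (T m : ℤ) := by
  unfold binom2
  have h : (2 : ℤ) * T m = m * (m + 1) := by exact_mod_cast two_T m
  have : (-((m : ℤ) + 1) + 1) * (-((m : ℤ) + 1) + 1 - 1) = 2 * T m := by rw [h]; ring
  rw [this]; simp

theorem binom2_neg' (m : ℕ) : binom2 (-((m : ℤ) + 1)) = ((T m - m + (2 * m + 1) : ℕ) : ℤ) := by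
  unfold binom2
  have h : (2 : ℤ) * T m = m * (m + 1) := by exact_mod_cast two_T m
  have h1 := le_T m
  push_cast [Nat.cast_sub h1]
  have : (-((m : ℤ) + 1)) * (-((m : ℤ) + 1) - 1) = 2 * (T m - m + (2 * m + 1)) := by
    linear_combination -h
  rw [this]; simp

/-- signs -/
def s (m : ℕ) : ℤ := (-1) ^ (T m)

theorem psi_eq (a N : ℕ) (ha : 1 ≤ a) : psi a N = ∑ m ∈ range (N + 1),
    s m * ((if e a m = N then 1 else 0) - (if e a m + (2 * m + 1) = N then 1 else 0)) := by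
  have h1 : Icc (-(N : ℤ) - 1) (N + 1) =
      (range (N + 2)).image (fun m : ℕ => (m : ℤ)) ∪
        (range (N + 1)).image (fun m : ℕ => -((m : ℤ) + 1)) := by
    ext n
    simp only [mem_Icc, mem_union, mem_image, mem_range]
    constructor
    · intro h
      rcases le_or_gt 0 n with h2 | h2
      · left; exact ⟨n.toNat, by omega, by omega⟩
      · right; exact ⟨(-n - 1).toNat, by omega, by omega⟩
    · rintro (⟨m, hm, rfl⟩ | ⟨m, hm, rfl⟩) <;> omega
  have h2 : Disjoint ((range (N + 2)).image (fun m : ℕ => (m : ℤ)))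
      ((range (N + 1)).image (fun m : ℕ => -((m : ℤ) + 1))) := by
    rw [Finset.disjoint_left]
    intro n hn hn'
    simp only [mem_image, mem_range] at hn hn'
    obtain ⟨m, _, rfl⟩ := hn
    obtain ⟨m', _, h⟩ := hn'
    omega
  unfold psi
  rw [h1, Finset.sum_union h2, Finset.sum_image (fun x _ y _ h => by simpa using h),
    Finset.sum_image (fun x _ y _ h => by simpa using h)]
  have h3 : ∀ m : ℕ, (if (a : ℤ) * binom2 ((m : ℤ) + 1) + binom2 (m : ℤ) = N then
      (if (0 : ℤ) ≤ (m : ℤ) then (1 : ℤ) else -1) * (-1) ^ (binom2 ((m : ℤ) + 1)).toNat else 0) =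
      s m * (if e a m = N then 1 else 0) := by
    intro m
    rw [binom2_pos, binom2_pos', if_pos (Int.natCast_nonneg m), Int.toNat_natCast]
    have h4 : ((a : ℤ) * (T m : ℤ) + ((T m - m : ℕ) : ℤ) = (N : ℤ)) ↔ e a m = N := by
      unfold e
      rw [← Int.natCast_mul, ← Int.natCast_add, Int.natCast_inj]
    by_cases h5 : e a m = N
    · rw [if_pos (h4.2 h5), if_pos h5]; unfold s; ring
    · rw [if_neg (fun h => h5 (h4.1 h)), if_neg h5, mul_zero]
  have h3' : ∀ m : ℕ, (if (a : ℤ) * binom2 (-((m : ℤ) + 1) + 1) + binom2 (-((m : ℤ) + 1)) = N then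
      (if (0 : ℤ) ≤ -((m : ℤ) + 1) then (1 : ℤ) else -1) *
        (-1) ^ (binom2 (-((m : ℤ) + 1) + 1)).toNat else 0) =
      -(s m * (if e a m + (2 * m + 1) = N then 1 else 0)) := by
    intro m
    have hneg : ¬ (0 : ℤ) ≤ -((m : ℤ) + 1) := by omega
    rw [binom2_neg, binom2_neg', if_neg hneg, Int.toNat_natCast]
    have h4 : ((a : ℤ) * (T m : ℤ) + ((T m - m + (2 * m + 1) : ℕ) : ℤ) = (N : ℤ)) ↔
        e a m + (2 * m + 1) = N := by
      unfold e
      rw [← Int.natCast_mul, ← Int.natCast_add, Int.natCast_inj, add_assoc]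
    by_cases h5 : e a m + (2 * m + 1) = N
    · rw [if_pos (h4.2 h5), if_pos h5]; unfold s; ring
    · rw [if_neg (fun h => h5 (h4.1 h)), if_neg h5, mul_zero, neg_zero]
  rw [Finset.sum_congr rfl (fun m _ => h3 m), Finset.sum_congr rfl (fun m _ => h3' m),
    Finset.sum_range_succ]
  have h5 : ¬ e a (N + 1) = N := by have := le_e a (N + 1) ha; omega
  rw [if_neg h5, mul_zero, add_zero, ← Finset.sum_add_distrib]
  refine Finset.sum_congr rfl fun m _ => ?_
  ring

/-! ### Evaluation for `0 ≤ q < 1` -/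

/-- the double series -/
noncomputable def g (a : ℕ) (q : ℝ) (m N : ℕ) : ℝ :=
  (s m : ℝ) * ((if e a m = N then 1 else 0) - (if e a m + (2 * m + 1) = N then 1 else 0)) * q ^ N

theorem abs_s (m : ℕ) : |(s m : ℝ)| = 1 := by
  unfold s
  push_cast
  rw [abs_pow, abs_neg, abs_one, one_pow]

theorem hasSum_ind (q : ℝ) (k : ℕ) : HasSum (fun N : ℕ => (if k = N then (1 : ℝ) else 0) * q ^ N)
    (q ^ k) := by
  have h : HasSum (fun N : ℕ => (if k = N then (1 : ℝ) else 0) * q ^ N)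
      ((if k = k then (1 : ℝ) else 0) * q ^ k) :=
    hasSum_single k (fun b hb => by rw [if_neg (fun h => hb h.symm), zero_mul])
  simpa using h

theorem hasSum_g (a : ℕ) (q : ℝ) (m : ℕ) :
    HasSum (g a q m) ((s m : ℝ) * (q ^ (e a m) - q ^ (e a m + (2 * m + 1)))) := by
  have h := ((hasSum_ind q (e a m)).sub (hasSum_ind q (e a m + (2 * m + 1)))).mul_left (s m : ℝ)
  have h1 : g a q m = fun i => (s m : ℝ) * ((if e a m = i then (1 : ℝ) else 0) * q ^ i -
      (if e a m + (2 * m + 1) = i then (1 : ℝ) else 0) * q ^ i) := by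
    funext i
    unfold g
    ring
  rw [h1]
  exact h

theorem summable_g (a : ℕ) (ha : 1 ≤ a) (q : ℝ) (hq0 : 0 ≤ q) (hq1 : q < 1) :
    Summable (Function.uncurry (g a q)) := by
  let G : ℕ × ℕ → ℝ := fun x => ((if e a x.1 = x.2 then (1 : ℝ) else 0) +
    (if e a x.1 + (2 * x.1 + 1) = x.2 then (1 : ℝ) else 0)) * q ^ x.2
  have hG0 : 0 ≤ G := by
    intro x
    show 0 ≤ ((if e a x.1 = x.2 then (1 : ℝ) else 0) +
      (if e a x.1 + (2 * x.1 + 1) = x.2 then (1 : ℝ) else 0)) * q ^ x.2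
    positivity
  have hGs : ∀ m, HasSum (fun N => G (m, N)) (q ^ (e a m) + q ^ (e a m + (2 * m + 1))) := by
    intro m
    have h := (hasSum_ind q (e a m)).add (hasSum_ind q (e a m + (2 * m + 1)))
    have h1 : (fun N => G (m, N)) = fun i => ((if e a m = i then (1 : ℝ) else 0) * q ^ i +
        (if e a m + (2 * m + 1) = i then (1 : ℝ) else 0) * q ^ i) := by
      funext i
      show ((if e a m = i then (1 : ℝ) else 0) +
        (if e a m + (2 * m + 1) = i then (1 : ℝ) else 0)) * q ^ i = _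
      ring
    rw [h1]
    exact h
  have hG : Summable G := by
    rw [summable_prod_of_nonneg hG0]
    refine ⟨fun m => (hGs m).summable, ?_⟩
    refine Summable.of_nonneg_of_le (fun m => tsum_nonneg fun N => hG0 (m, N)) (fun m => ?_)
      ((summable_geometric_of_lt_one hq0 hq1).mul_left 2)
    rw [(hGs m).tsum_eq]
    have h1 : q ^ (e a m) ≤ q ^ m := pow_le_pow_of_le_one hq0 hq1.le (le_e a m ha)
    have h2 : q ^ (e a m + (2 * m + 1)) ≤ q ^ m :=
      pow_le_pow_of_le_one hq0 hq1.le (by have := le_e a m ha; omega)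
    linarith
  refine Summable.of_norm_bounded hG ?_
  rintro ⟨m, N⟩
  show ‖g a q m N‖ ≤ ((if e a m = N then (1 : ℝ) else 0) +
      (if e a m + (2 * m + 1) = N then (1 : ℝ) else 0)) * q ^ N
  unfold g
  rw [norm_mul, norm_mul, Real.norm_eq_abs, Real.norm_eq_abs, Real.norm_eq_abs, abs_s, one_mul,
    abs_of_nonneg (pow_nonneg hq0 N)]
  apply mul_le_mul_of_nonneg_right _ (pow_nonneg hq0 N)
  split_ifs <;> norm_num

theorem F_eq (a : ℕ) (ha : 1 ≤ a) (q : ℝ) (hq0 : 0 ≤ q) (hq1 : q < 1) :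
    ∑' N, (psi a N : ℝ) * q ^ N =
      ∑' m, (s m : ℝ) * (q ^ (e a m) - q ^ (e a m + (2 * m + 1))) := by
  have h1 : ∀ N, (psi a N : ℝ) * q ^ N = ∑' m, g a q m N := by
    intro N
    rw [tsum_eq_sum (s := range (N + 1))]
    · rw [psi_eq a N ha]
      push_cast
      rw [Finset.sum_mul]
      refine Finset.sum_congr rfl fun m _ => ?_
      unfold g
      ring
    · intro m hm
      rw [mem_range, not_lt] at hm
      have h2 := le_e a m ha
      unfold g
      rw [if_neg (by omega), if_neg (by omega)]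
      ring
  rw [tsum_congr h1, (summable_g a ha q hq0 hq1).tsum_comm]
  exact tsum_congr fun m => (hasSum_g a q m).tsum_eq

theorem abs_psi_le (a N : ℕ) (ha : 1 ≤ a) : |(psi a N : ℝ)| ≤ 2 * ((N : ℝ) + 1) := by
  rw [psi_eq a N ha]
  push_cast
  refine (Finset.abs_sum_le_sum_abs _ _).trans ?_
  have h1 : ∀ m ∈ range (N + 1), |(s m : ℝ) * ((if e a m = N then (1 : ℝ) else 0) -
      (if e a m + (2 * m + 1) = N then (1 : ℝ) else 0))| ≤ 2 := by
    intro m _
    rw [abs_mul, abs_s, one_mul]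
    split_ifs <;> norm_num
  refine (Finset.sum_le_sum h1).trans ?_
  rw [Finset.sum_const, card_range, nsmul_eq_mul]
  push_cast
  linarith

theorem summable_bound (q : ℝ) (hq0 : 0 ≤ q) (hq1 : q < 1) :
    Summable (fun N : ℕ => 2 * ((N : ℝ) + 1) * q ^ N) := by
  have h1 := summable_pow_mul_geometric_of_norm_lt_one 1
    (show ‖q‖ < 1 by rwa [Real.norm_of_nonneg hq0])
  have h2 := summable_geometric_of_lt_one hq0 hq1
  have h3 := (h1.add h2).mul_left 2
  refine h3.congr fun N => ?_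
  ring

/-! ### A negative value -/

theorem one_sub_pow_le (q : ℝ) (hq0 : 0 ≤ q) (_hq1 : q ≤ 1) (n : ℕ) : 1 - q ^ n ≤ n * (1 - q) := by
  have h := one_add_mul_le_pow (show (-2 : ℝ) ≤ q - 1 by linarith) n
  have h1 : 1 + (q - 1) = q := by ring
  rw [h1] at h
  linarith

theorem T_ge (m : ℕ) : 6 + 4 * m ≤ T (m + 3) := by
  have h := two_T (m + 3)
  have h1 : m ≤ m * m := Nat.le_mul_self m
  have h2 : (m + 3) * (m + 3 + 1) = m * m + 7 * m + 12 := by ring
  omega

theorem neg_value (a : ℕ) (ha : 1 ≤ a) (q : ℝ) (hq0 : 0 < q) (hq1 : q < 1) (hqa : q ^ a = 3 / 5)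
    (hq : 3 / 5 ≤ q) :
    ∑' m, (s m : ℝ) * (q ^ (e a m) - q ^ (e a m + (2 * m + 1))) < 0 := by
  have hsum : Summable (fun m => (s m : ℝ) * (q ^ (e a m) - q ^ (e a m + (2 * m + 1)))) := by
    have h1 : ∀ m, ‖(s m : ℝ) * (q ^ (e a m) - q ^ (e a m + (2 * m + 1)))‖ ≤ q ^ m := by
      intro m
      rw [norm_mul, Real.norm_eq_abs, abs_s, one_mul, Real.norm_eq_abs]
      have h2 : q ^ (e a m) ≤ q ^ m := pow_le_pow_of_le_one hq0.le hq1.le (le_e a m ha)
      have h3 : q ^ (e a m + (2 * m + 1)) ≤ q ^ (e a m) :=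
        pow_le_pow_of_le_one hq0.le hq1.le (by omega)
      have h4 : 0 < q ^ (e a m + (2 * m + 1)) := pow_pos hq0 _
      rw [abs_of_nonneg (by linarith)]
      linarith
    exact Summable.of_norm_bounded (summable_geometric_of_lt_one hq0.le hq1) h1
  rw [← hsum.sum_add_tsum_nat_add 3]
  set z : ℝ := (3 / 5 : ℝ) ^ 4 with hz
  have hz1 : ‖z‖ < 1 := by rw [hz]; norm_num
  have htail : ∑' m, (s (m + 3) : ℝ) * (q ^ (e a (m + 3)) - q ^ (e a (m + 3) + (2 * (m + 3) + 1))) ≤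
      ∑' m : ℕ, (1 - q) * (3 / 5) ^ 6 * ((2 * (m : ℝ) + 7) * z ^ m) := by
    have hs2 : Summable (fun m : ℕ => (1 - q) * (3 / 5) ^ 6 * ((2 * (m : ℝ) + 7) * z ^ m)) := by
      apply Summable.mul_left
      have h1 := (summable_pow_mul_geometric_of_norm_lt_one 1 hz1).mul_left 2
      have h2 := (summable_geometric_of_norm_lt_one hz1).mul_left 7
      refine (h1.add h2).congr fun m => ?_
      ring
    refine Summable.tsum_le_tsum (fun m => ?_) ((summable_nat_add_iff 3).2 hsum) hs2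
    have h1 : (s (m + 3) : ℝ) * (q ^ (e a (m + 3)) - q ^ (e a (m + 3) + (2 * (m + 3) + 1))) ≤
        q ^ (e a (m + 3)) * (1 - q ^ (2 * (m + 3) + 1)) := by
      have h2 : q ^ (e a (m + 3)) - q ^ (e a (m + 3) + (2 * (m + 3) + 1)) =
          q ^ (e a (m + 3)) * (1 - q ^ (2 * (m + 3) + 1)) := by rw [pow_add]; ring
      rw [h2]
      have h3 : 0 ≤ q ^ (e a (m + 3)) * (1 - q ^ (2 * (m + 3) + 1)) := by
        apply mul_nonneg (pow_nonneg hq0.le _)
        have := pow_le_one₀ (n := 2 * (m + 3) + 1) hq0.le hq1.le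
        linarith
      have h4 : (s (m + 3) : ℝ) ≤ 1 := by
        have := abs_s (m + 3)
        exact (le_abs_self _).trans this.le
      exact mul_le_of_le_one_left h3 h4
    refine h1.trans ?_
    have h2 : q ^ (e a (m + 3)) ≤ (3 / 5) ^ 6 * z ^ m := by
      unfold e
      rw [pow_add, pow_mul, hqa]
      have h3 : q ^ (T (m + 3) - (m + 3)) ≤ 1 := pow_le_one₀ hq0.le hq1.le
      have h4 : (3 / 5 : ℝ) ^ (T (m + 3)) ≤ (3 / 5) ^ (6 + 4 * m) :=
        pow_le_pow_of_le_one (by norm_num) (by norm_num) (T_ge m)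
      have h5 : (3 / 5 : ℝ) ^ (6 + 4 * m) = (3 / 5) ^ 6 * z ^ m := by
        rw [hz, pow_add, pow_mul]
      rw [← h5]
      calc (3 / 5 : ℝ) ^ (T (m + 3)) * q ^ (T (m + 3) - (m + 3)) ≤
          (3 / 5 : ℝ) ^ (T (m + 3)) * 1 :=
            mul_le_mul_of_nonneg_left h3 (by positivity)
        _ ≤ _ := by rw [mul_one]; exact h4
    have h3 := one_sub_pow_le q hq0.le hq1.le (2 * (m + 3) + 1)
    have h4 : (((2 * (m + 3) + 1 : ℕ) : ℝ)) = 2 * (m : ℝ) + 7 := by push_cast; ring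
    rw [h4] at h3
    have h5 : 0 ≤ 1 - q ^ (2 * (m + 3) + 1) := by
      have := pow_le_one₀ (n := 2 * (m + 3) + 1) hq0.le hq1.le
      linarith
    calc q ^ (e a (m + 3)) * (1 - q ^ (2 * (m + 3) + 1)) ≤
        ((3 / 5) ^ 6 * z ^ m) * ((2 * (m : ℝ) + 7) * (1 - q)) :=
          mul_le_mul h2 h3 h5 (by positivity)
      _ = _ := by ring
  have hval : ∑' m : ℕ, (1 - q) * (3 / 5) ^ 6 * ((2 * (m : ℝ) + 7) * z ^ m) =
      (1 - q) * (3 / 5) ^ 6 * (2 * (z / (1 - z) ^ 2) + 7 * (1 - z)⁻¹) := by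
    rw [tsum_mul_left]
    congr 1
    have h1 := (hasSum_coe_mul_geometric_of_norm_lt_one hz1).mul_left 2
    have h2 := (hasSum_geometric_of_norm_lt_one hz1).mul_left 7
    rw [← (h1.add h2).tsum_eq]
    refine tsum_congr fun m => ?_
    ring
  rw [hval] at htail
  have hhead : ∑ m ∈ range 3, (s m : ℝ) * (q ^ (e a m) - q ^ (e a m + (2 * m + 1))) =
      (1 - q) * (1 - 3 / 5 * (1 + q + q ^ 2) - (3 / 5) ^ 3 * (q * (1 + q + q ^ 2 + q ^ 3 + q ^ 4))) := by
    rw [Finset.sum_range_succ, Finset.sum_range_succ, Finset.sum_range_one]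
    have e0 : e a 0 = 0 := by unfold e T; simp
    have e1 : e a 1 = a := by unfold e T; simp
    have e2 : e a 2 = a * 3 + 1 := by unfold e T; norm_num
    have s0 : (s 0 : ℝ) = 1 := by unfold s T; norm_num
    have s1 : (s 1 : ℝ) = -1 := by unfold s T; norm_num
    have s2 : (s 2 : ℝ) = -1 := by unfold s T; norm_num
    rw [e0, e1, e2, s0, s1, s2, pow_add q a, pow_add q (a * 3 + 1), pow_add q (a * 3), pow_mul,
      hqa]
    ring
  rw [hhead]
  have hz2 : z = 81 / 625 := by rw [hz]; norm_num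
  rw [hz2] at htail
  have h1q : 0 < 1 - q := by linarith
  have hnum : (3 / 5 : ℝ) ^ 6 * (2 * (81 / 625 / (1 - 81 / 625) ^ 2) + 7 * (1 - 81 / 625)⁻¹) < 0.3913 := by
    norm_num
  have hb1 : 1 + 3 / 5 + (3 / 5 : ℝ) ^ 2 ≤ 1 + q + q ^ 2 := by nlinarith
  have hb2 : (3 / 5 : ℝ) * (1 + 3 / 5 + (3 / 5) ^ 2 + (3 / 5) ^ 3 + (3 / 5) ^ 4) ≤
      q * (1 + q + q ^ 2 + q ^ 3 + q ^ 4) := by
    have q2 : (3 / 5 : ℝ) ^ 2 ≤ q ^ 2 := pow_le_pow_left₀ (by norm_num) hq 2
    have q3 : (3 / 5 : ℝ) ^ 3 ≤ q ^ 3 := pow_le_pow_left₀ (by norm_num) hq 3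
    have q4 : (3 / 5 : ℝ) ^ 4 ≤ q ^ 4 := pow_le_pow_left₀ (by norm_num) hq 4
    apply mul_le_mul hq (by linarith) (by norm_num) hq0.le
  have hbr : (1 - 3 / 5 * (1 + q + q ^ 2) - (3 / 5) ^ 3 * (q * (1 + q + q ^ 2 + q ^ 3 + q ^ 4))) +
      (3 / 5 : ℝ) ^ 6 * (2 * (81 / 625 / (1 - 81 / 625) ^ 2) + 7 * (1 - 81 / 625)⁻¹) < 0 := by
    norm_num at hb1 hb2 hnum ⊢
    linarith
  have hfin := mul_neg_of_pos_of_neg h1q hbr
  linarith

/-! ### The product with the reciprocal -/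

theorem psi_zero (a : ℕ) (ha : 1 ≤ a) : psi a 0 = 1 := by
  rw [psi_eq a 0 ha]
  simp [s, e, T]

theorem mul_c (a : ℕ) (ha : 1 ≤ a) (n : ℕ) :
    ∑ x ∈ antidiagonal n, psi a x.1 * c a x.2 = if n = 0 then 1 else 0 := by
  have h1 : Psi a * PowerSeries.invOfUnit (Psi a) 1 = 1 := by
    apply PowerSeries.mul_invOfUnit
    rw [← PowerSeries.coeff_zero_eq_constantCoeff_apply]
    unfold Psi
    rw [PowerSeries.coeff_mk, psi_zero a ha]
    rfl
  have h2 := congrArg (PowerSeries.coeff n) h1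
  rw [PowerSeries.coeff_mul, PowerSeries.coeff_one] at h2
  rw [← h2]
  refine Finset.sum_congr rfl fun x _ => ?_
  unfold c
  congr 1
  unfold Psi
  rw [PowerSeries.coeff_mk]

/-- For every `a ≥ 1` the coefficients `c_a(n)` grow exponentially. -/
theorem result : ∀ a : ℕ, 1 ≤ a → ∃ β : ℝ, 1 < β ∧ ∃ᶠ n in atTop, β ^ n ≤ |(c a n : ℝ)| := by
  intro a ha
  by_contra hcon
  push Not at hcon
  -- summability of the reciprocal series
  have hc : ∀ q : ℝ, 0 < q → q < 1 → Summable (fun n => ‖(c a n : ℝ) * q ^ n‖) := by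
    intro q hq0 hq1
    set β : ℝ := (1 + 1 / q) / 2 with hβ
    have h1 : 1 < 1 / q := by rw [lt_div_iff₀ hq0]; linarith
    have hβ1 : 1 < β := by rw [hβ]; linarith
    have hβq : β * q = (q + 1) / 2 := by rw [hβ]; field_simp
    have h2 := hcon β hβ1
    have h3 : Summable (fun n : ℕ => ((q + 1) / 2) ^ n) :=
      summable_geometric_of_lt_one (by linarith) (by linarith)
    refine Summable.of_norm_bounded_eventually_nat h3 ?_
    filter_upwards [h2] with n hn
    rw [norm_norm, norm_mul, Real.norm_eq_abs, Real.norm_of_nonneg (pow_nonneg hq0.le n), ← hβq,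
      mul_pow]
    exact mul_le_mul_of_nonneg_right hn.le (pow_nonneg hq0.le n)
  have hpsi : ∀ q : ℝ, 0 ≤ q → q < 1 → Summable (fun n => ‖(psi a n : ℝ) * q ^ n‖) := by
    intro q hq0 hq1
    refine Summable.of_nonneg_of_le (fun _ => norm_nonneg _) (fun n => ?_)
      (summable_bound q hq0 hq1)
    rw [norm_mul, Real.norm_eq_abs, Real.norm_of_nonneg (pow_nonneg hq0 n)]
    exact mul_le_mul_of_nonneg_right (abs_psi_le a n ha) (pow_nonneg hq0 n)
  have hprod : ∀ q : ℝ, 0 < q → q < 1 →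
      (∑' n, (psi a n : ℝ) * q ^ n) * (∑' n, (c a n : ℝ) * q ^ n) = 1 := by
    intro q hq0 hq1
    rw [tsum_mul_tsum_eq_tsum_sum_antidiagonal_of_summable_norm (hpsi q hq0.le hq1)
      (hc q hq0 hq1)]
    have h1 : ∀ n, ∑ x ∈ antidiagonal n, (psi a x.1 : ℝ) * q ^ x.1 * ((c a x.2 : ℝ) * q ^ x.2) =
        if n = 0 then 1 else 0 := by
      intro n
      have h2 : ∀ x ∈ antidiagonal n, (psi a x.1 : ℝ) * q ^ x.1 * ((c a x.2 : ℝ) * q ^ x.2) =
          q ^ n * ((psi a x.1 * c a x.2 : ℤ) : ℝ) := by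
        intro x hx
        rw [Finset.HasAntidiagonal.mem_antidiagonal] at hx
        rw [← hx, pow_add]
        push_cast
        ring
      rw [Finset.sum_congr rfl h2, ← Finset.mul_sum]
      have h3 := mul_c a ha n
      have h4 : ∑ x ∈ antidiagonal n, ((psi a x.1 * c a x.2 : ℤ) : ℝ) =
          ((if n = 0 then 1 else 0 : ℤ) : ℝ) := by
        rw [← h3]; push_cast; rfl
      rw [h4]
      by_cases h5 : n = 0
      · subst h5; simp
      · simp [h5]
    rw [tsum_congr h1, tsum_ite_eq]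
  -- the point
  have ha0 : a ≠ 0 := by omega
  set q1 : ℝ := (3 / 5 : ℝ) ^ ((a : ℝ)⁻¹) with hq1def
  have hq1a : q1 ^ a = 3 / 5 := Real.rpow_inv_natCast_pow (by norm_num) ha0
  have hq1pos : 0 < q1 := Real.rpow_pos_of_pos (by norm_num) _
  have hq1lt : q1 < 1 := by
    by_contra h
    have h1 := one_le_pow₀ (n := a) (not_lt.1 h)
    rw [hq1a] at h1
    norm_num at h1
  have hq1ge : 3 / 5 ≤ q1 := by
    rw [← hq1a]
    exact pow_le_of_le_one hq1pos.le hq1lt.le ha0
  have hneg := neg_value a ha q1 hq1pos hq1lt hq1a hq1ge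
  rw [← F_eq a ha q1 hq1pos.le hq1lt] at hneg
  have hcont : ContinuousOn (fun q : ℝ => ∑' n, (psi a n : ℝ) * q ^ n) (Set.Icc 0 q1) := by
    refine continuousOn_tsum (u := fun n : ℕ => 2 * ((n : ℝ) + 1) * q1 ^ n) (fun n => ?_)
      (summable_bound q1 hq1pos.le hq1lt) (fun n x hx => ?_)
    · exact (continuous_const.mul (continuous_pow n)).continuousOn
    · rw [norm_mul, Real.norm_eq_abs, Real.norm_of_nonneg (pow_nonneg hx.1 n)]
      exact mul_le_mul (abs_psi_le a n ha) (pow_le_pow_left₀ hx.1 hx.2 n) (pow_nonneg hx.1 n)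
        (by positivity)
  have hzero : ∑' n, (psi a n : ℝ) * (0 : ℝ) ^ n = 1 := by
    rw [tsum_eq_single 0]
    · rw [psi_zero a ha]; simp
    · intro n hn
      rw [zero_pow hn, mul_zero]
  have hivt := intermediate_value_Icc' hq1pos.le hcont
  rw [hzero] at hivt
  obtain ⟨q0, hq0, hq0'⟩ := hivt (show (0 : ℝ) ∈ Set.Icc _ 1 from ⟨hneg.le, zero_le_one⟩)
  have hq0pos : 0 < q0 := by
    rcases hq0.1.lt_or_eq with h | h
    · exact h
    · rw [← h] at hq0'
      have h1 : ∑' n, (psi a n : ℝ) * (0 : ℝ) ^ n = 0 := hq0'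
      rw [hzero] at h1
      exact absurd h1 one_ne_zero
  have hfin := hprod q0 hq0pos (lt_of_le_of_lt hq0.2 hq1lt)
  have hq0'' : ∑' n, (psi a n : ℝ) * q0 ^ n = 0 := hq0'
  rw [hq0'', zero_mul] at hfin
  exact zero_ne_one hfin

end Pool.Agent.Results.MP_0ebc21_nt.ExponentialGrowth
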